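import Mathlib

set_option autoImplicit false

namespace Pool.Agent.H.MP_e16db3_al

/-- group words: a letter is a generator index with a sign -/
abbrev W := List (ℕ × Bool)

/-- the degree `d` and, for each generator, the list of values of its permutation and its `d` section words -/
abbrev Data := ℕ × List (List ℕ × List W)

def IsWord (D : Data) (g : W) : Prop := ∀ a ∈ g, a.1 < D.2.length

def IsVertex (D : Data) (v : List ℕ) : Prop := ∀ x ∈ v, x < D.1

def Valid (D : Data) : Prop :=
  2 ≤ D.1 ∧ ∀ s ∈ D.2, s.1.Perm (List.range D.1) ∧ s.2.length = D.1 ∧ ∀ g ∈ s.2, IsWord D g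

/-- the permutation part of a word, the rightmost letter acting first -/
def out (D : Data) : W → ℕ → ℕ
  | [], x => x
  | (i, true) :: g, x => (D.2.getD i ([], [])).1.getD (out D g x) 0
  | (i, false) :: g, x => (D.2.getD i ([], [])).1.idxOf (out D g x)

/-- the section of a word at a letter -/
def sec (D : Data) : W → ℕ → W
  | [], _ => []
  | (i, true) :: g, x => (D.2.getD i ([], [])).2.getD (out D g x) [] ++ sec D g x
  | (i, false) :: g, x =>
      FreeGroup.invRev ((D.2.getD i ([], [])).2.getD (out D ((i, false) :: g) x) []) ++ sec D g x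

/-- the section of a word at a vertex -/
def secs (D : Data) : W → List ℕ → W
  | g, [] => g
  | g, x :: v => secs D (sec D g x) v

/-- the action on the tree -/
def act (D : Data) : W → List ℕ → List ℕ
  | _, [] => []
  | g, x :: v => out D g x :: act D (sec D g x) v

/-- equality in the faithful quotient -/
def Eqv (D : Data) (g h : W) : Prop := ∀ v, IsVertex D v → act D g v = act D h v

def Contracting (D : Data) : Prop :=
  ∃ N : Finset W, (∀ h ∈ N, IsWord D h) ∧ ∀ g, IsWord D g → ∃ n : ℕ, ∀ v, IsVertex D v → n ≤ v.length →
    ∃ h ∈ N, Eqv D (secs D g v) h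

end Pool.Agent.H.MP_e16db3_al
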