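import Mathlib
import Pool.Agent.H.MP_e16db3_al.Defs

set_option autoImplicit false

namespace Pool.Agent.H.MP_e16db3_al

open Equiv FreeGroup

structure Rec (X S : Type) where
  π : S → Perm X
  w : S → X → List (S × Bool)

namespace Rec

variable {X S : Type} (R : Rec X S)

def o1 (a : S × Bool) : Perm X := if a.2 then R.π a.1 else (R.π a.1)⁻¹

def s1 (a : S × Bool) (x : X) : List (S × Bool) :=
  if a.2 then R.w a.1 x else invRev (R.w a.1 ((R.π a.1)⁻¹ x))

def out : List (S × Bool) → Perm X
  | [] => 1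
  | a :: g => R.o1 a * out g

def sec : List (S × Bool) → X → List (S × Bool)
  | [], _ => []
  | a :: g, x => R.s1 a (R.out g x) ++ sec g x

def secs : List (S × Bool) → List X → List (S × Bool)
  | g, [] => g
  | g, x :: v => secs (R.sec g x) v

def act : List (S × Bool) → List X → List X
  | _, [] => []
  | g, x :: v => R.out g x :: act (R.sec g x) v

theorem out_append (g h) : R.out (g ++ h) = R.out g * R.out h := by
  induction g with
  | nil => simp [out]
  | cons a g ih => simp [out, ih, mul_assoc]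

theorem sec_append (g h x) : R.sec (g ++ h) x = R.sec g (R.out h x) ++ R.sec h x := by
  induction g with
  | nil => simp [sec]
  | cons a g ih => simp [sec, ih, out_append]

theorem act_nil (v) : R.act [] v = v := by
  induction v with
  | nil => rfl
  | cons x v ih => simp [act, out, sec, ih]

theorem act_append (g h v) : R.act (g ++ h) v = R.act g (R.act h v) := by
  induction v generalizing g h with
  | nil => rfl
  | cons x v ih => simp [act, out_append, sec_append, ih]

theorem o1_not (a : S × Bool) : R.o1 (a.1, !a.2) = (R.o1 a)⁻¹ := by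
  obtain ⟨s, b⟩ := a
  cases b <;> simp [o1]

theorem s1_not (a : S × Bool) (x) : R.s1 (a.1, !a.2) (R.o1 a x) = invRev (R.s1 a x) := by
  obtain ⟨s, b⟩ := a
  cases b <;> simp [o1, s1]

theorem out_inv (g) : R.out (invRev g) = (R.out g)⁻¹ := by
  induction g with
  | nil => simp [out]
  | cons a g ih =>
    rw [invRev_cons, out_append, ih]
    simp [invRev, out, o1_not]

theorem sec_inv (g x) : R.sec (invRev g) (R.out g x) = invRev (R.sec g x) := by
  induction g with
  | nil => simp [sec]
  | cons a g ih =>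
    have e : invRev [a] = [(a.1, !a.2)] := by simp [invRev]
    rw [invRev_cons, sec_append, e]
    simp only [out, sec, mul_one, o1_not, Perm.mul_apply, Perm.one_apply, Perm.coe_inv, symm_apply_apply, ih,
      s1_not, List.append_nil, invRev_append]

theorem act_inv (g v) : R.act (invRev g) (R.act g v) = v := by
  induction v generalizing g with
  | nil => rfl
  | cons x v ih => simp [act, out_inv, sec_inv, ih]

def ev (g : List (S × Bool)) : Perm (List X) :=
  ⟨R.act g, R.act (invRev g), R.act_inv g, fun v => by simpa using R.act_inv (invRev g) v⟩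

theorem ev_apply (g v) : R.ev g v = R.act g v := rfl

@[simp] theorem ev_nil : R.ev [] = 1 := by ext1 v; exact R.act_nil v

theorem ev_append (g h) : R.ev (g ++ h) = R.ev g * R.ev h := by ext1 v; exact R.act_append g h v

theorem ev_inv (g) : R.ev (invRev g) = (R.ev g)⁻¹ := by
  ext1 v; rfl

theorem ev_cons (a g) : R.ev (a :: g) = R.ev [a] * R.ev g := R.ev_append [a] g

theorem ev_false (s) : R.ev [(s, false)] = (R.ev [(s, true)])⁻¹ := by
  rw [← ev_inv]; simp [invRev]

theorem ev_rep (a n) : R.ev (List.replicate n a) = R.ev [a] ^ n := by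
  induction n with
  | zero => simp
  | succ n ih => rw [List.replicate_succ, ev_cons, ih, pow_succ']

def Contr : Prop :=
  ∃ N : Set (List (S × Bool)), N.Finite ∧ ∀ g, ∃ n : ℕ, ∀ v : List X, n ≤ v.length → ∃ h ∈ N, R.ev (R.secs g v) = R.ev h

end Rec

variable {X : Type}

def Rl (d : Perm (List X)) (x y : X) (h : Perm (List X)) : Prop := ∀ v, d (x :: v) = y :: h v

theorem Rl.mul {d d' h h' : Perm (List X)} {x y z : X} (a : Rl d x y h) (b : Rl d' y z h') :
    Rl (d' * d) x z (h' * h) := fun v => by simp [a v, b _]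

theorem Rl.inv {d h : Perm (List X)} {x y : X} (a : Rl d x y h) : Rl d⁻¹ y x h⁻¹ := fun v => by
  rw [Perm.inv_eq_iff_eq, a]; simp

theorem Rl.one (x : X) : Rl 1 x x 1 := fun _ => rfl

theorem Rl.uniq {d h h' : Perm (List X)} {x y y' : X} (a : Rl d x y h) (b : Rl d x y' h') : y = y' ∧ h = h' :=
  ⟨(List.cons.inj ((a []).symm.trans (b []))).1, Equiv.ext fun v => (List.cons.inj ((a v).symm.trans (b v))).2⟩

theorem Rl.pow {d h : Perm (List X)} {x : X} (a : Rl d x x h) (n : ℕ) : Rl (d ^ n) x x (h ^ n) := by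
  induction n with
  | zero => simpa using Rl.one x
  | succ n ih => rw [pow_succ, pow_succ]; exact a.mul ih

theorem Rl.zpow {d h : Perm (List X)} {x : X} (a : Rl d x x h) (n : ℤ) : Rl (d ^ n) x x (h ^ n) := by
  obtain ⟨n, rfl | rfl⟩ := n.eq_nat_or_neg
  · simpa using a.pow n
  · simpa using (a.pow n).inv

theorem Rl.of_eq {d d' h h' : Perm (List X)} {x y y' : X} (a : Rl d x y h) (e0 : d = d') (e1 : y = y') (e2 : h = h') :
    Rl d' x y' h' := e0 ▸ e1 ▸ e2 ▸ a

theorem Rec.rl {S : Type} (R : Rec X S) (g x) : Rl (R.ev g) x (R.out g x) (R.ev (R.sec g x)) := fun _ => rfl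

theorem Rec.rl1 {S : Type} (R : Rec X S) (s x) : Rl (R.ev [(s, true)]) x (R.π s x) (R.ev (R.w s x)) :=
  (R.rl [(s, true)] x).of_eq rfl (by simp [Rec.out, Rec.o1]) (by simp [Rec.sec, Rec.s1, Rec.out])

theorem Rec.sec_congr {S : Type} (R : Rec X S) {g h} (e : R.ev g = R.ev h) (x) : R.ev (R.sec g x) = R.ev (R.sec h x) :=
  ((R.rl g x).uniq (e ▸ R.rl h x)).2

theorem Rec.secs_congr {S : Type} (R : Rec X S) {g h} (e : R.ev g = R.ev h) (v) :
    R.ev (R.secs g v) = R.ev (R.secs h v) := by
  induction v generalizing g h with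
  | nil => exact e
  | cons x v ih => exact ih (R.sec_congr e x)

theorem fin_of_secs [Finite X] {d : Perm (List X)} (h0 : d [] = []) (H : ∀ x, ∃ h, Rl d x x h ∧ IsOfFinOrder h) :
    IsOfFinOrder d := by
  have := Fintype.ofFinite X
  choose h h1 h2 using H
  refine isOfFinOrder_iff_pow_eq_one.2 ⟨∏ x, orderOf (h x), Finset.prod_pos fun x _ => (h2 x).orderOf_pos, ?_⟩
  ext1 v
  cases v with
  | nil => exact Function.IsFixedPt.perm_pow h0 _
  | cons x v =>
    rw [(h1 x).pow _ v, orderOf_dvd_iff_pow_eq_one.1 (Finset.dvd_prod_of_mem (fun x => orderOf (h x)) (Finset.mem_univ x))]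
    rfl

section dih
variable {G : Type} [Group G]

def Dih (a b k : G) : Prop := ∃ i : ℤ, k = (a * b) ^ i ∨ k = (a * b) ^ i * b

theorem Dih.one (a b : G) : Dih a b 1 := ⟨0, Or.inl (by simp)⟩

theorem conj_b {a b : G} (ha : a * a = 1) (hb : b * b = 1) (i : ℤ) : b * (a * b) ^ i = (a * b) ^ (-i) * b := by
  have e : b * (a * b) * b⁻¹ = (a * b)⁻¹ := by
    rw [mul_inv_rev, inv_eq_of_mul_eq_one_right ha, inv_eq_of_mul_eq_one_right hb]
    simp [mul_assoc, hb]
  rw [zpow_neg, ← inv_zpow, ← e, conj_zpow]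
  simp

theorem Dih.left_b {a b k : G} (ha : a * a = 1) (hb : b * b = 1) (h : Dih a b k) : Dih a b (b * k) := by
  obtain ⟨i, rfl | rfl⟩ := h
  · exact ⟨-i, Or.inr (conj_b ha hb i)⟩
  · exact ⟨-i, Or.inl (by rw [← mul_assoc, conj_b ha hb, mul_assoc, hb, mul_one])⟩

theorem Dih.left_a {a b k : G} (ha : a * a = 1) (hb : b * b = 1) (h : Dih a b k) : Dih a b (a * k) := by
  obtain ⟨i, h⟩ := h.left_b ha hb
  have e : a * k = (a * b) * (b * k) := by rw [mul_assoc, ← mul_assoc b, hb, one_mul]
  refine ⟨1 + i, ?_⟩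
  rw [e, zpow_add, zpow_one]
  rcases h with h | h <;> rw [h]
  · exact Or.inl rfl
  · exact Or.inr (mul_assoc _ _ _).symm

theorem Dih.fin {a b k : G} (ha : a * a = 1) (hb : b * b = 1) (f : IsOfFinOrder (a * b)) (h : Dih a b k) :
    IsOfFinOrder k := by
  obtain ⟨i, rfl | rfl⟩ := h
  · exact f.zpow
  · refine isOfFinOrder_iff_pow_eq_one.2 ⟨2, two_pos, ?_⟩
    rw [pow_two, mul_assoc, ← mul_assoc b, conj_b ha hb, mul_assoc, hb]
    simp

end dih

end Pool.Agent.H.MP_e16db3_al
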