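import Mathlib
import Pool.Agent.H.MP_e16db3_al.A

set_option autoImplicit false

namespace Pool.Agent.H.MP_e16db3_al

open Equiv FreeGroup

variable {X S : Type} {d k : ℕ} (eX : X ≃ Fin d) (eS : S ≃ Fin k)

def encW (g : List (S × Bool)) : W := g.map fun a => ((eS a.1 : ℕ), a.2)

def encV (v : List X) : List ℕ := v.map fun x => (eX x : ℕ)

def Rec.data (R : Rec X S) : Data :=
  (d, List.ofFn fun i : Fin k => (List.ofFn fun j : Fin d => (eX (R.π (eS.symm i) (eX.symm j)) : ℕ),
    List.ofFn fun j : Fin d => encW eS (R.w (eS.symm i) (eX.symm j))))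

variable (R : Rec X S)

theorem row (s : S) : (R.data eX eS).2.getD (eS s) ([], []) =
    (List.ofFn fun j : Fin d => (eX (R.π s (eX.symm j)) : ℕ), List.ofFn fun j : Fin d => encW eS (R.w s (eX.symm j))) := by
  simp [Rec.data, List.getD_eq_getElem?_getD]

theorem nodup_row (p : Perm X) : (List.ofFn fun j : Fin d => (eX (p (eX.symm j)) : ℕ)).Nodup :=
  List.nodup_ofFn.2 (Fin.val_injective.comp (eX.injective.comp (p.injective.comp eX.symm.injective)))

theorem idx_row (p : Perm X) (x : X) : (List.ofFn fun j : Fin d => (eX (p (eX.symm j)) : ℕ)).idxOf (eX x : ℕ) = eX (p⁻¹ x) := by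
  have := (nodup_row eX p).idxOf_getElem (eX (p⁻¹ x)) (by simp)
  simpa using this

theorem enc_inv (g) : encW eS (invRev g) = invRev (encW eS g) := by
  simp [encW, invRev, List.map_reverse]

theorem out_enc (g x) : out (R.data eX eS) (encW eS g) (eX x) = eX (R.out g x) := by
  induction g with
  | nil => rfl
  | cons a g ih =>
    obtain ⟨s, b⟩ := a
    cases b
    · change ((R.data eX eS).2.getD (eS s) ([], [])).1.idxOf (out (R.data eX eS) (encW eS g) (eX x)) = _
      rw [row, ih, idx_row]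
      rfl
    · change ((R.data eX eS).2.getD (eS s) ([], [])).1.getD (out (R.data eX eS) (encW eS g) (eX x)) 0 = _
      rw [row, ih]
      simp [List.getD_eq_getElem?_getD, Rec.out, Rec.o1]

theorem sec_enc (g x) : sec (R.data eX eS) (encW eS g) (eX x) = encW eS (R.sec g x) := by
  induction g with
  | nil => rfl
  | cons a g ih =>
    obtain ⟨s, b⟩ := a
    cases b
    · change invRev (((R.data eX eS).2.getD (eS s) ([], [])).2.getD (out (R.data eX eS) (encW eS ((s, false) :: g)) (eX x)) []) ++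
        sec (R.data eX eS) (encW eS g) (eX x) = _
      rw [row, ih, out_enc]
      simp [List.getD_eq_getElem?_getD, Rec.out, Rec.o1, Rec.sec, Rec.s1, ← enc_inv]
      simp [encW]
    · change ((R.data eX eS).2.getD (eS s) ([], [])).2.getD (out (R.data eX eS) (encW eS g) (eX x)) [] ++
        sec (R.data eX eS) (encW eS g) (eX x) = _
      rw [row, ih, out_enc]
      simp [List.getD_eq_getElem?_getD, Rec.sec, Rec.s1]
      simp [encW]

theorem secs_enc (g v) : secs (R.data eX eS) (encW eS g) (encV eX v) = encW eS (R.secs g v) := by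
  induction v generalizing g with
  | nil => rfl
  | cons x v ih =>
    change secs _ (sec _ _ (eX x : ℕ)) (encV eX v) = _
    rw [sec_enc, ih]
    rfl

theorem act_enc (g v) : act (R.data eX eS) (encW eS g) (encV eX v) = encV eX (R.act g v) := by
  induction v generalizing g with
  | nil => rfl
  | cons x v ih =>
    change out _ _ (eX x : ℕ) :: act _ (sec _ _ (eX x : ℕ)) (encV eX v) = _
    rw [sec_enc, out_enc, ih]
    rfl

theorem isWord_iff (g) : IsWord (R.data eX eS) g ↔ ∃ h, encW eS h = g := by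
  simp only [IsWord, Rec.data, List.length_ofFn]
  constructor
  · intro H
    refine ⟨g.attach.map fun a => (eS.symm ⟨a.1.1, H _ a.2⟩, a.1.2), ?_⟩
    simp [encW, Function.comp_def, List.attach_map_subtype_val]
  · rintro ⟨h, rfl⟩ a ha
    obtain ⟨b, -, rfl⟩ := List.mem_map.1 ha
    exact Fin.is_lt _

theorem isVertex_iff (v) : IsVertex (R.data eX eS) v ↔ ∃ u, encV eX u = v := by
  simp only [IsVertex, Rec.data]
  constructor
  · intro H
    refine ⟨v.attach.map fun a => eX.symm ⟨a.1, H _ a.2⟩, ?_⟩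
    simp [encV, Function.comp_def]
  · rintro ⟨h, rfl⟩ a ha
    obtain ⟨b, -, rfl⟩ := List.mem_map.1 ha
    exact Fin.is_lt _

theorem eqv_iff (g h) : Eqv (R.data eX eS) (encW eS g) (encW eS h) ↔ R.ev g = R.ev h := by
  have inj : Function.Injective (encV eX) := List.map_injective_iff.2 (Fin.val_injective.comp eX.injective)
  constructor
  · intro H
    ext1 v
    have := H _ ((isVertex_iff eX eS R _).2 ⟨v, rfl⟩)
    rw [act_enc, act_enc] at this
    exact inj this
  · intro H v hv
    obtain ⟨u, rfl⟩ := (isVertex_iff eX eS R _).1 hv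
    rw [act_enc, act_enc, ← Rec.ev_apply, H, Rec.ev_apply]

theorem valid_data (hd : 2 ≤ d) : Valid (R.data eX eS) := by
  refine ⟨hd, fun s hs => ?_⟩
  obtain ⟨i, rfl⟩ := List.mem_ofFn.1 hs
  refine ⟨?_, by simp [Rec.data], fun g hg => ?_⟩
  · refine (List.perm_ext_iff_of_nodup (nodup_row eX _) List.nodup_range).2 fun a => ?_
    simp only [List.mem_ofFn, List.mem_range, Rec.data]
    exact ⟨fun ⟨j, h⟩ => h ▸ Fin.is_lt _, fun h => ⟨eX ((R.π (eS.symm i))⁻¹ (eX.symm ⟨a, h⟩)), by simp⟩⟩
  · obtain ⟨j, rfl⟩ := List.mem_ofFn.1 hg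
    exact (isWord_iff eX eS R _).2 ⟨_, rfl⟩

theorem contr_iff : Contracting (R.data eX eS) ↔ R.Contr := by
  have inj : Function.Injective (encW eS) := List.map_injective_iff.2 fun a b h => by
    simpa [Fin.val_inj, Prod.ext_iff] using h
  constructor
  · rintro ⟨N, h1, h2⟩
    refine ⟨encW eS ⁻¹' N, N.finite_toSet.preimage inj.injOn, fun g => ?_⟩
    obtain ⟨n, hn⟩ := h2 _ ((isWord_iff eX eS R _).2 ⟨g, rfl⟩)
    refine ⟨n, fun v hv => ?_⟩
    obtain ⟨h, hh, e⟩ := hn _ ((isVertex_iff eX eS R _).2 ⟨v, rfl⟩) (by simpa [encV] using hv)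
    obtain ⟨h, rfl⟩ := (isWord_iff eX eS R _).1 (h1 h hh)
    rw [secs_enc, eqv_iff] at e
    exact ⟨h, hh, e⟩
  · rintro ⟨N, h1, h2⟩
    refine ⟨(h1.image (encW eS)).toFinset, fun h hh => ?_, fun g hg => ?_⟩
    · obtain ⟨h, -, rfl⟩ := (Set.Finite.mem_toFinset _).1 hh
      exact (isWord_iff eX eS R _).2 ⟨h, rfl⟩
    · obtain ⟨g, rfl⟩ := (isWord_iff eX eS R _).1 hg
      obtain ⟨n, hn⟩ := h2 g
      refine ⟨n, fun v hv hl => ?_⟩
      obtain ⟨v, rfl⟩ := (isVertex_iff eX eS R _).1 hv
      obtain ⟨h, hh, e⟩ := hn v (by simpa [encV] using hl)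
      exact ⟨_, (Set.Finite.mem_toFinset _).2 ⟨h, hh, rfl⟩, by rw [secs_enc, eqv_iff]; exact e⟩

theorem data_comp (R : ℕ → Rec X S) (h1 : ∀ n, (R n).π = (R 0).π) (h2 : ∀ s x, Computable fun n => encW eS ((R n).w s x)) :
    Computable fun n => (R n).data eX eS := by
  refine (Computable.const d).pair (Computable.list_ofFn fun i => Computable.pair ?_ (Computable.list_ofFn fun j => h2 _ _))
  exact (Computable.const _).of_eq fun n => by rw [h1 n]

end Pool.Agent.H.MP_e16db3_al
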