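import Mathlib
import Pool.Agent.H.MP_e16db3_al.A

set_option autoImplicit false

namespace Pool.Agent.H.MP_e16db3_al

open Equiv FreeGroup

structure Mc (Q : Type) where
  M : ℕ
  T : ℕ
  hM : 1 < M
  hT : 0 < T
  nx : Q → ZMod M → Option Q
  u : Q → ZMod M → ℕ
  v : Q → ZMod M → ℕ
  huv : ∀ q r, u q r + v q r ≤ T

inductive Gen (Q : Type)
  | x | b | U
  | a (q : Q)

def al {T : ℕ} (t : Fin (2 * T + 1)) : Fin (2 * T + 1) :=
  ⟨if t.val % 2 = 0 then (if t.val < 2 * T then t.val + 1 else t.val) else t.val - 1, by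
    have := t.2; split_ifs <;> omega⟩

def be {T : ℕ} (t : Fin (2 * T + 1)) : Fin (2 * T + 1) :=
  ⟨if t.val % 2 = 1 then t.val + 1 else t.val - 1, by have := t.2; split_ifs <;> omega⟩

theorem al_al {T : ℕ} (t : Fin (2 * T + 1)) : al (al t) = t := by
  have := t.2
  ext; simp only [al]; split_ifs <;> omega

theorem be_be {T : ℕ} (t : Fin (2 * T + 1)) : be (be t) = t := by
  have := t.2
  ext; simp only [be]; split_ifs <;> omega

namespace Mc

variable {Q : Type} [DecidableEq Q] (m : Mc Q)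

instance : Fact (1 < m.M) := ⟨m.hM⟩
instance : NeZero m.M := ⟨by have := m.hM; omega⟩

abbrev L := (Q × ZMod m.M × Fin (2 * m.T + 1) × ZMod m.M) ⊕ Bool

def fx (k : ZMod m.M) : m.L → m.L
  | .inl (q, r, t, j) => .inl (q, r, t, j + k)
  | .inr c => .inr c

def fb : m.L → m.L
  | .inl (q, r, t, j) => .inl (q, r, be t, j)
  | .inr c => .inr c

def fa (p : Q) : m.L → m.L
  | .inl (q, r, t, j) => .inl (q, r, if q = p ∧ j = 0 then al t else t, j)
  | .inr c => .inr c

def pi : Gen Q → Perm m.L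
  | .x => ⟨m.fx 1, m.fx (-1), by rintro (⟨q, r, t, j⟩ | c) <;> simp [fx], by rintro (⟨q, r, t, j⟩ | c) <;> simp [fx]⟩
  | .b => Function.Involutive.toPerm m.fb (by rintro (⟨q, r, t, j⟩ | c) <;> simp [fb, be_be])
  | .U => 1
  | .a p => Function.Involutive.toPerm (m.fa p) (by
      rintro (⟨q, r, t, j⟩ | c) <;> simp only [fa]
      split_ifs <;> simp [al_al])

def actv (q : Q) (r : ZMod m.M) (t : ℕ) (j : ZMod m.M) : Prop :=
  t % 2 = 1 ∧ ((t / 2 < m.u q r ∧ j = -1) ∨ (m.u q r ≤ t / 2 ∧ t / 2 < m.u q r + m.v q r ∧ j = 0))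

instance (q r t j) : Decidable (m.actv q r t j) := by unfold actv; infer_instance

def wd (gw : List (Gen Q × Bool)) : Gen Q → m.L → List (Gen Q × Bool)
  | .x, .inl (q, r, t, j) => if m.actv q r t j then [(.x, false)] else []
  | .b, .inl (_, r, t, j) => if t.val = 0 ∧ j = r then [(.b, true)] else []
  | .a p, .inl (q, r, t, j) => if q = p ∧ j = 0 ∧ t.val = 2 * m.T then (m.nx q r).elim [] fun q' => [(.a q', true)] else []
  | .U, .inl _ => []
  | .U, .inr true => [(.U, true)]
  | .U, .inr false => gw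
  | .x, .inr _ => []
  | .b, .inr _ => []
  | .a _, .inr _ => []

def R (gw : List (Gen Q × Bool)) : Rec m.L (Gen Q) := ⟨m.pi, m.wd gw⟩

variable (gw : List (Gen Q × Bool))

def X : Perm (List m.L) := (m.R gw).ev [(.x, true)]
def B : Perm (List m.L) := (m.R gw).ev [(.b, true)]
def A (o : Option Q) : Perm (List m.L) := (m.R gw).ev (o.elim [] fun q => [(.a q, true)])

theorem rlX (q r t j) : Rl (m.X gw) (.inl (q, r, t, j)) (.inl (q, r, t, j + 1)) (if m.actv q r t j then (m.X gw)⁻¹ else 1) :=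
  ((m.R gw).rl1 .x _).of_eq rfl rfl (by
    simp only [R, wd]
    split_ifs
    · exact Rec.ev_false _ _
    · exact Rec.ev_nil _)

theorem rlB (q r t j) : Rl (m.B gw) (.inl (q, r, t, j)) (.inl (q, r, be t, j)) (if t.val = 0 ∧ j = r then m.B gw else 1) :=
  ((m.R gw).rl1 .b _).of_eq rfl rfl (by
    simp only [R, wd]
    split_ifs
    · rfl
    · exact Rec.ev_nil _)

theorem rlA (p q r t j) : Rl (m.A gw (some p)) (.inl (q, r, t, j)) (.inl (q, r, if q = p ∧ j = 0 then al t else t, j))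
    (if q = p ∧ j = 0 ∧ t.val = 2 * m.T then m.A gw (m.nx q r) else 1) :=
  ((m.R gw).rl1 (.a p) _).of_eq rfl rfl (by
    simp only [R, wd]
    split_ifs
    · rfl
    · exact Rec.ev_nil _)

theorem rlXc (c) : Rl (m.X gw) (.inr c) (.inr c) 1 := ((m.R gw).rl1 .x _).of_eq rfl rfl (Rec.ev_nil _)
theorem rlBc (c) : Rl (m.B gw) (.inr c) (.inr c) 1 := ((m.R gw).rl1 .b _).of_eq rfl rfl (Rec.ev_nil _)
theorem rlAc (p c) : Rl (m.A gw (some p)) (.inr c) (.inr c) 1 := ((m.R gw).rl1 (.a p) _).of_eq rfl rfl (Rec.ev_nil _)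

theorem BB : m.B gw * m.B gw = 1 := by
  ext1 v
  induction v with
  | nil => rfl
  | cons l v ih =>
    rcases l with ⟨q, r, t, j⟩ | c
    · rw [((m.rlB gw q r t j).mul (m.rlB gw q r (be t) j)) v, be_be]
      by_cases h : t.val = 0 ∧ j = r
      · have : (be t).val = 0 := by simp [be, h.1]
        rw [if_pos h, if_pos ⟨this, h.2⟩, ih]
        rfl
      · have : ¬ ((be t).val = 0 ∧ j = r) := fun e => h ⟨by have := e.1; simp only [be] at this; split_ifs at this <;> omega, e.2⟩
        rw [if_neg h, if_neg this]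
        rfl
    · rw [((m.rlBc gw c).mul (m.rlBc gw c)) v]; rfl

theorem AA (o) : m.A gw o * m.A gw o = 1 := by
  ext1 v
  induction v generalizing o with
  | nil => rfl
  | cons l v ih =>
    rcases o with _ | p
    · simp [A]
    rcases l with ⟨q, r, t, j⟩ | c
    · rw [((m.rlA gw p q r t j).mul (m.rlA gw p q r _ j)) v]
      by_cases h : q = p ∧ j = 0
      · simp only [h, and_self, if_true, true_and, al_al]
        by_cases e : t.val = 2 * m.T
        · have : (al t).val = 2 * m.T := by simp [al, e]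
          rw [if_pos e, if_pos this, ih]
          rfl
        · have : ¬ (al t).val = 2 * m.T := by have := t.2; simp only [al]; split_ifs <;> omega
          rw [if_neg e, if_neg this]
          rfl
      · have h' : ∀ P, ¬ (q = p ∧ j = 0 ∧ P) := fun P e => h ⟨e.1, e.2.1⟩
        simp only [if_neg h, if_neg (h' _)]
        rfl
    · rw [((m.rlAc gw p c).mul (m.rlAc gw p c)) v]; rfl

def cnt (q : Q) (r : ZMod m.M) (t : ℕ) (j : ZMod m.M) : ℕ → ℕ
  | 0 => 0
  | n + 1 => cnt q r t j n + if m.actv q r t (j + n) then 1 else 0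

theorem rlXn (q r t j) (n : ℕ) : Rl (m.X gw ^ n) (.inl (q, r, t, j)) (.inl (q, r, t, j + n))
    (m.X gw ^ (-(m.cnt q r t j n : ℤ))) := by
  induction n with
  | zero => simpa [cnt] using Rl.one _
  | succ n ih =>
    refine (ih.mul (m.rlX gw q r t (j + n))).of_eq (pow_succ' _ _).symm (by simp [add_assoc]) ?_
    simp only [cnt]
    split_ifs
    · rw [← zpow_neg_one, ← zpow_add]
      congr 1
      push_cast
      ring
    · simp

omit [DecidableEq Q] in
theorem cnt_zero (q r t n) : m.cnt q r t 0 n =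
    if t % 2 = 1 then (if t / 2 < m.u q r then n / m.M else if t / 2 < m.u q r + m.v q r then (n + m.M - 1) / m.M else 0) else 0 := by
  have hM := m.hM
  induction n with
  | zero =>
    have : (m.M - 1) / m.M = 0 := Nat.div_eq_of_lt (by omega)
    simp [cnt, this]
  | succ n ih =>
    have e1 : (n : ZMod m.M) = -1 ↔ m.M ∣ n + 1 := by
      rw [← ZMod.natCast_eq_zero_iff, Nat.cast_succ, eq_neg_iff_add_eq_zero]
    have e2 : (n : ZMod m.M) = 0 ↔ m.M ∣ (n + m.M - 1) + 1 := by
      rw [ZMod.natCast_eq_zero_iff, show n + m.M - 1 + 1 = n + m.M by omega, Nat.dvd_add_self_right]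
    rw [cnt, ih, show n + 1 + m.M - 1 = (n + m.M - 1) + 1 by omega, Nat.succ_div, Nat.succ_div]
    simp only [actv, zero_add, e1, e2]
    by_cases a1 : t % 2 = 1 <;> by_cases a2 : t / 2 < m.u q r <;> by_cases a3 : t / 2 < m.u q r + m.v q r <;>
      simp [a1, a2, a3, not_lt.1, not_le.2]

end Mc

end Pool.Agent.H.MP_e16db3_al
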