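import Mathlib
import Pool.Agent.H.MP_e16db3_al.C

set_option autoImplicit false

namespace Pool.Agent.H.MP_e16db3_al

open Equiv FreeGroup

namespace Mc

variable {Q : Type} [DecidableEq Q] (m : Mc Q) (gw : List (Gen Q × Bool)) (n : ℕ)

def Ph (q : Q) (r : ZMod m.M) (t : ℕ) : ℕ := ∑ s ∈ Finset.range ((t + 1) / 2), m.cnt q r (2 * s + 1) 0 n

def ph : m.L → ℤ
  | .inl (q, r, t, _) => -(m.Ph n q r t : ℤ)
  | .inr _ => 0

def Gr (x y : m.L) (d k : Perm (List m.L)) : Prop := Rl d x y (m.X gw ^ m.ph n y * k * m.X gw ^ (-m.ph n x))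

variable {m gw n} in
theorem Gr.mul {x y z d d' k k'} (a : m.Gr gw n x y d k) (b : m.Gr gw n y z d' k') : m.Gr gw n x z (d' * d) (k' * k) :=
  (Rl.mul a b).of_eq rfl rfl (by group)

theorem Gr.one (x) : m.Gr gw n x x 1 1 := (Rl.one x).of_eq rfl rfl (by group)

def cf (o : Option Q) (k : ℕ) : Perm (List m.L) := m.X gw ^ k * m.A gw o * (m.X gw ^ k)⁻¹

theorem cf_cf (o k) : m.cf gw o k * m.cf gw o k = 1 := by
  have := m.AA gw o
  simp only [cf]
  calc _ = m.X gw ^ k * (m.A gw o * m.A gw o) * (m.X gw ^ k)⁻¹ := by group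
    _ = 1 := by rw [this]; group

theorem grB (q r t j) : m.Gr gw n (.inl (q, r, t, j)) (.inl (q, r, be t, j)) (m.B gw) (if t.val = 0 ∧ j = r then m.B gw else 1) := by
  refine (m.rlB gw q r t j).of_eq rfl rfl ?_
  have e : ((be t).val + 1) / 2 = (t.val + 1) / 2 := by simp only [be]; split_ifs <;> omega
  simp only [ph, Ph, e]
  split_ifs with h
  · simp [h.1]
  · group

theorem grA (p q r t j) : m.Gr gw n (.inl (q, r, t, j)) (.inl (q, r, if q = p ∧ j = n then al t else t, j)) (m.cf gw (some p) n)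
    (if q = p ∧ j = n ∧ t.val = 2 * m.T then m.cf gw (m.nx q r) (m.Ph n q r t) else 1) := by
  obtain ⟨j, rfl⟩ : ∃ i, j = i + n := ⟨j - n, by simp⟩
  have h := ((m.rlXn gw q r t j n).inv.mul (m.rlA gw p q r t j)).mul (m.rlXn gw q r _ j n)
  simp only [add_eq_right]
  refine h.of_eq (by simp [cf, mul_assoc]) rfl ?_
  by_cases c : q = p ∧ j = 0
  · obtain ⟨rfl, rfl⟩ := c
    simp only [and_self, if_true, true_and, ph]
    have t2 := t.2
    by_cases e : t.val = 2 * m.T
    · have e1 : al t = t := by ext; simp [al, e]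
      have e2 : m.cnt q r t 0 n = 0 := by rw [cnt_zero, if_neg (by omega)]
      rw [if_pos e, if_pos e, e1, e2, cf]
      simp only [zpow_neg, zpow_natCast]
      group
    · rw [if_neg e, if_neg e, mul_one, one_mul, ← zpow_neg, ← zpow_add, ← zpow_add]
      congr 1
      rcases Nat.even_or_odd' t.val with ⟨s, hs | hs⟩
      · have e1 : (al t).val = 2 * s + 1 := by simp only [al]; split_ifs <;> omega
        have e2 : m.cnt q r (2 * s) 0 n = 0 := by rw [cnt_zero, if_neg (by omega)]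
        rw [e1, hs, e2, Ph, Ph, show (2 * s + 1 + 1) / 2 = s + 1 by omega, show (2 * s + 1) / 2 = s by omega, Finset.sum_range_succ]
        push_cast
        ring
      · have e1 : (al t).val = 2 * s := by simp only [al]; split_ifs <;> omega
        have e2 : m.cnt q r (2 * s) 0 n = 0 := by rw [cnt_zero, if_neg (by omega)]
        rw [e1, hs, e2, Ph, Ph, show (2 * s + 1 + 1) / 2 = s + 1 by omega, show (2 * s + 1) / 2 = s by omega, Finset.sum_range_succ]
        push_cast
        ring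
  · have h' : ∀ P, ¬ (q = p ∧ j = 0 ∧ P) := fun P e => c ⟨e.1, e.2.1⟩
    simp only [if_neg c, if_neg (h' _), ph]
    group

theorem grAc (p c) : m.Gr gw n (.inr c) (.inr c) (m.cf gw (some p) n) 1 :=
  ((((m.rlXc gw c).pow n).inv.mul (m.rlAc gw p c)).mul ((m.rlXc gw c).pow n)).of_eq (by simp [cf, mul_assoc]) rfl (by simp [ph])

theorem grBc (c) : m.Gr gw n (.inr c) (.inr c) (m.B gw) 1 := (m.rlBc gw c).of_eq rfl rfl (by simp [ph])

def nn (q : Q) (r : ZMod m.M) : ℕ := m.u q r * (n / m.M) + m.v q r * ((n + m.M - 1) / m.M)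

omit [DecidableEq Q] in
theorem Ph_end (q r) : m.Ph n q r (2 * m.T) = m.nn n q r := by
  have key : ∀ k, ∑ s ∈ Finset.range k, m.cnt q r (2 * s + 1) 0 n =
      min k (m.u q r) * (n / m.M) + min (k - m.u q r) (m.v q r) * ((n + m.M - 1) / m.M) := fun k => by
    induction k with
    | zero => simp
    | succ k ih =>
      rw [Finset.sum_range_succ, ih, cnt_zero, if_pos (by omega), show (2 * k + 1) / 2 = k by omega]
      split_ifs with h1 h2
      · rw [show min (k + 1) (m.u q r) = min k (m.u q r) + 1 by omega, show k + 1 - m.u q r = k - m.u q r by omega]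
        ring
      · rw [show min (k + 1) (m.u q r) = min k (m.u q r) by omega,
          show min (k + 1 - m.u q r) (m.v q r) = min (k - m.u q r) (m.v q r) + 1 by omega]
        ring
      · rw [show min (k + 1) (m.u q r) = min k (m.u q r) by omega,
          show min (k + 1 - m.u q r) (m.v q r) = min (k - m.u q r) (m.v q r) by omega]
        ring
  have := m.huv q r
  rw [Ph, key, show (2 * m.T + 1) / 2 = m.T by omega, min_eq_right (by omega), min_eq_right (by omega), nn]

def gg (o : Option Q) (k : ℕ) : Perm (List m.L) := m.cf gw o k * m.B gw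

def ak (p : Q) : m.L → Perm (List m.L)
  | .inl (q, r, _, j) => if q = p ∧ j = n then m.cf gw (m.nx q r) (m.nn n q r) else 1
  | .inr _ => 1

def bk : m.L → Perm (List m.L)
  | .inl (_, r, _, j) => if j = r then m.B gw else 1
  | .inr _ => 1

theorem ak2 (p x) : m.ak gw n p x * m.ak gw n p x = 1 := by
  rcases x with ⟨q, r, t, j⟩ | c <;> simp only [ak]
  · split_ifs
    · exact m.cf_cf gw _ _
    · simp
  · simp

theorem bk2 (x) : m.bk gw x * m.bk gw x = 1 := by
  rcases x with ⟨q, r, t, j⟩ | c <;> simp only [bk]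
  · split_ifs
    · exact m.BB gw
    · simp
  · simp

theorem stp (p x) : ∃ y k k', m.Gr gw n x y (m.gg gw (some p) n) (k * k') ∧ (k = 1 ∨ k = m.ak gw n p x) ∧ (k' = 1 ∨ k' = m.bk gw x) ∧
    m.ak gw n p y = m.ak gw n p x ∧ m.bk gw y = m.bk gw x := by
  rcases x with ⟨q, r, t, j⟩ | c
  · refine ⟨_, _, _, (m.grB gw n q r t j).mul (m.grA gw n p q r _ j), ?_, ?_, rfl, rfl⟩
    · split_ifs with h
      · right
        rw [ak, if_pos ⟨h.1, h.2.1⟩, h.2.2, Ph_end]
      · exact Or.inl rfl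
    · split_ifs with h
      · right
        rw [bk, if_pos h.2]
      · exact Or.inl rfl
  · exact ⟨_, _, _, (m.grBc gw n c).mul (m.grAc gw n p c), Or.inl rfl, Or.inl rfl, rfl, rfl⟩

theorem stps (p x) (i : ℕ) : ∃ y k, m.Gr gw n x y (m.gg gw (some p) n ^ i) k ∧ Dih (m.ak gw n p x) (m.bk gw x) k ∧
    m.ak gw n p y = m.ak gw n p x ∧ m.bk gw y = m.bk gw x := by
  induction i with
  | zero => exact ⟨x, 1, by simpa using Gr.one m gw n x, Dih.one _ _, rfl, rfl⟩
  | succ i ih =>
    obtain ⟨y, k, h1, h2, h3, h4⟩ := ih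
    obtain ⟨z, a, b, e1, e2, e3, e4, e5⟩ := m.stp gw n p y
    refine ⟨z, _, pow_succ' (m.gg gw (some p) n) i ▸ h1.mul e1, ?_, e4.trans h3, e5.trans h4⟩
    have ha := m.ak2 gw n p x
    have hb := m.bk2 gw x
    have : Dih (m.ak gw n p x) (m.bk gw x) (b * k) := by
      rcases e3 with rfl | rfl
      · simpa using h2
      · exact h4 ▸ (h4 ▸ h2 : Dih _ (m.bk gw y) k).left_b ha (m.bk2 gw y)
    rw [mul_assoc]
    rcases e2 with rfl | rfl
    · simpa using this
    · rw [h3]; exact this.left_a ha hb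

def gwd (q : Q) (k : ℕ) : List (Gen Q × Bool) :=
  List.replicate k (.x, true) ++ (.a q, true) :: List.replicate k (.x, false) ++ [(.b, true)]

theorem ev_gwd (q k) : (m.R gw).ev (gwd q k) = m.gg gw (some q) k := by
  rw [gwd, Rec.ev_append, Rec.ev_append, Rec.ev_cons, Rec.ev_rep, Rec.ev_rep, Rec.ev_false, inv_pow, gg, cf, mul_assoc (m.X gw ^ k)]
  rfl

theorem inv_fin {G : Type} [Group G] {a : G} (h : a * a = 1) : IsOfFinOrder a :=
  isOfFinOrder_iff_pow_eq_one.2 ⟨2, two_pos, by rw [pow_two, h]⟩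

theorem fin_none (k) : IsOfFinOrder (m.gg gw none k) := by
  have : m.gg gw none k = m.B gw := by simp [gg, cf, A]
  exact this ▸ inv_fin (m.BB gw)

theorem fin_step [Finite Q] (p) (H : IsOfFinOrder (m.gg gw (m.nx p n) (m.nn n p n))) : IsOfFinOrder (m.gg gw (some p) n) := by
  have h0 := (isOfFinOrder_of_finite ((m.R gw).out (gwd p n))).orderOf_pos
  have hp : ∀ (i : ℕ) x, ∃ h, Rl (m.gg gw (some p) n ^ i) x (((m.R gw).out (gwd p n) ^ i) x) h := fun i x => by
    induction i with
    | zero => exact ⟨1, by simpa using Rl.one x⟩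
    | succ i ih =>
      obtain ⟨h, hh⟩ := ih
      exact ⟨_, (hh.mul ((m.R gw).rl (gwd p n) _)).of_eq (by rw [ev_gwd, pow_succ']) (by rw [pow_succ']; rfl) rfl⟩
  refine (fin_of_secs (Function.IsFixedPt.perm_pow (by rw [← ev_gwd]; rfl) _) fun x => ?_).of_pow h0.ne'
  obtain ⟨y, k, h1, h2, -⟩ := m.stps gw n p x (orderOf ((m.R gw).out (gwd p n)))
  obtain ⟨h, hh⟩ := hp (orderOf ((m.R gw).out (gwd p n))) x
  obtain rfl : y = x := by simpa [pow_orderOf_eq_one] using (h1.uniq hh).1
  refine ⟨_, h1, ?_⟩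
  have : IsOfFinOrder k := by
    refine h2.fin (m.ak2 gw n p y) (m.bk2 gw y) ?_
    rcases y with ⟨q, r, t, j⟩ | c <;> simp only [ak, bk]
    · split_ifs with a b b
      · obtain ⟨rfl, rfl⟩ := a
        subst b
        exact H
      · simpa using inv_fin (m.cf_cf gw _ _)
      · simpa using inv_fin (m.BB gw)
      · simp
    · simp
  obtain ⟨N, h3, h4⟩ := isOfFinOrder_iff_pow_eq_one.1 this
  exact isOfFinOrder_iff_pow_eq_one.2 ⟨N, h3, by rw [zpow_neg, conj_pow, h4]; simp⟩

def tau (i : ℕ) : Fin (2 * m.T + 1) := ⟨if i ≤ m.T then 2 * i - 1 else 2 * (2 * m.T + 1 - i), by split_ifs <;> omega⟩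

theorem orbit (p) (i : ℕ) (hi : i ≤ 2 * m.T + 1) : m.Gr gw n (.inl (p, n, 0, n)) (.inl (p, n, m.tau i, n)) (m.gg gw (some p) n ^ i)
    (if i = 0 then 1 else if i ≤ m.T then m.B gw else m.gg gw (m.nx p n) (m.nn n p n)) := by
  have hT := m.hT
  induction i with
  | zero => simpa [tau] using Gr.one m gw n _
  | succ i ih =>
    have h := (ih (by omega)).mul ((m.grB gw n p n (m.tau i) n).mul (m.grA gw n p p n _ n))
    have e1 : al (be (m.tau i)) = m.tau (i + 1) := by
      ext; simp only [al, be, tau]; split_ifs <;> omega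
    have e2 : (be (m.tau i)).val = 2 * m.T ↔ i = m.T := by simp only [be, tau]; split_ifs <;> omega
    have e3 : (m.tau i).val = 0 ↔ i = 0 := by simp only [tau]; split_ifs <;> omega
    simp only [and_self, if_true, true_and, and_true, e1, e2, e3] at h
    rw [pow_succ']
    convert h using 1
    · rfl
    by_cases a : i = 0
    · subst a
      simp [hT.ne, Nat.succ_le_of_lt hT]
    · by_cases b : i = m.T
      · rw [e2.2 b, Ph_end]
        simp [b, hT.ne', gg]
      · by_cases c : i ≤ m.T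
        · simp [a, b, c, show i + 1 ≤ m.T by omega]
        · simp [a, b, c, show ¬ i + 1 ≤ m.T by omega]

theorem desc (p) (N : ℕ) (h0 : 0 < N) (H : m.gg gw (some p) n ^ N = 1) :
    ∃ K, 0 < K ∧ K < N ∧ m.gg gw (m.nx p n) (m.nn n p n) ^ K = 1 := by
  have hT := m.hT
  have z : m.ph n (.inl (p, n, 0, n)) = 0 := by simp [ph, Ph]
  have a : Rl (m.gg gw (some p) n ^ (2 * m.T + 1)) (.inl (p, n, 0, n)) (.inl (p, n, 0, n)) (m.gg gw (m.nx p n) (m.nn n p n)) := by
    have e : m.tau (2 * m.T + 1) = 0 := by ext; simp [tau]; omega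
    have := m.orbit gw n p _ le_rfl
    rw [e, Gr, z, if_neg (by omega), if_neg (by omega)] at this
    simpa using this
  have l := Nat.mod_lt N (show 0 < 2 * m.T + 1 by omega)
  have b := (a.pow (N / (2 * m.T + 1))).mul (m.orbit gw n p _ l.le)
  rw [← pow_mul, ← pow_add, Nat.mod_add_div, H] at b
  obtain ⟨e1, e2⟩ := b.uniq (Rl.one _)
  have e3 : N % (2 * m.T + 1) = 0 := by
    have : (m.tau (N % (2 * m.T + 1))).val = 0 := by
      simp only [Sum.inl.injEq, Prod.mk.injEq, true_and, and_true] at e1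
      rw [e1]; rfl
    simp only [tau] at this
    split_ifs at this <;> omega
  rw [e1, z, if_pos e3] at e2
  refine ⟨N / (2 * m.T + 1), Nat.div_pos (Nat.le_of_dvd h0 (Nat.dvd_of_mod_eq_zero e3)) (by omega), Nat.div_lt_self h0 (by omega), ?_⟩
  simpa using e2

end Mc

end Pool.Agent.H.MP_e16db3_al
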