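import Mathlib
import Pool.Agent.H.MP_e16db3_al.D

set_option autoImplicit false

namespace Pool.Agent.H.MP_e16db3_al

open Equiv FreeGroup

def Old {Q : Type} (g : List (Gen Q × Bool)) : Prop := ∀ a ∈ g, a.1 ≠ .U

namespace Mc

variable {Q : Type} [DecidableEq Q] (m : Mc Q) (gw : List (Gen Q × Bool))

theorem wd_old (s : Gen Q) (hs : s ≠ .U) (x) : Old (m.wd gw s x) ∧ (m.wd gw s x).length ≤ 1 := by
  rcases s with _ | _ | _ | p <;> rcases x with ⟨q, r, t, j⟩ | c <;> simp only [wd] <;> try (exact absurd rfl hs)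
  all_goals try split_ifs
  all_goals try cases m.nx q r
  all_goals simp [Old]

theorem s1_old (a : Gen Q × Bool) (hs : a.1 ≠ .U) (x) : Old ((m.R gw).s1 a x) ∧ ((m.R gw).s1 a x).length ≤ 1 := by
  unfold Rec.s1
  split_ifs
  · exact m.wd_old gw _ hs x
  · obtain ⟨h1, h2⟩ := m.wd_old gw _ hs (((m.R gw).π a.1)⁻¹ x)
    refine ⟨fun b hb => ?_, by rw [invRev_length]; exact h2⟩
    simp only [invRev, List.mem_reverse, List.mem_map] at hb
    obtain ⟨c, hc, rfl⟩ := hb
    exact h1 c hc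

theorem s1_x (b x) (h : (m.R gw).s1 (.x, b) x ≠ []) :
    ∃ q r t j, x = .inl (q, r, t, j) ∧ m.actv q r t (if b then j else j - 1) := by
  rcases x with ⟨q, r, t, j⟩ | c
  · refine ⟨q, r, t, j, rfl, ?_⟩
    by_contra e
    cases b
    · refine h ?_
      change invRev (m.wd gw .x (.inl (q, r, t, j + -1))) = []
      rw [wd, if_neg (by simpa [sub_eq_add_neg] using e)]
      rfl
    · exact h (if_neg e)
  · cases b <;> exact absurd rfl h

theorem s1_b (b x) (h : (m.R gw).s1 (.b, b) x ≠ []) :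
    (∃ q r t j, x = .inl (q, r, t, j) ∧ t.val = 0) ∧ (m.R gw).ev ((m.R gw).s1 (.b, b) x) = m.B gw := by
  rcases x with ⟨q, r, t, j⟩ | c
  · cases b
    · change invRev (m.wd gw .b (.inl (q, r, be t, j))) ≠ [] at h
      change _ ∧ (m.R gw).ev (invRev (m.wd gw .b (.inl (q, r, be t, j)))) = _
      rw [wd] at h ⊢
      split_ifs at h ⊢ with e
      · refine ⟨⟨q, r, t, j, rfl, ?_⟩, by rw [Rec.ev_inv]; exact inv_eq_of_mul_eq_one_right (m.BB gw)⟩
        have := e.1
        simp only [be] at this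
        split_ifs at this
        omega
      · exact absurd rfl h
    · change m.wd gw .b (.inl (q, r, t, j)) ≠ [] at h
      change _ ∧ (m.R gw).ev (m.wd gw .b (.inl (q, r, t, j))) = _
      rw [wd] at h ⊢
      split_ifs at h ⊢ with e
      · exact ⟨⟨q, r, t, j, rfl, e.1⟩, rfl⟩
      · exact absurd rfl h
  · cases b <;> exact absurd rfl h

theorem s1_a (p b x) (h : (m.R gw).s1 (.a p, b) x ≠ []) :
    ∃ q r t j, x = .inl (q, r, t, j) ∧ t.val = 2 * m.T ∧ (m.R gw).ev ((m.R gw).s1 (.a p, b) x) = m.A gw (m.nx q r) := by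
  rcases x with ⟨q, r, t, j⟩ | c
  · refine ⟨q, r, t, j, rfl, ?_⟩
    cases b
    · change invRev (m.wd gw (.a p) (.inl (q, r, if q = p ∧ j = 0 then al t else t, j))) ≠ [] at h
      change _ ∧ (m.R gw).ev (invRev (m.wd gw (.a p) (.inl (q, r, if q = p ∧ j = 0 then al t else t, j)))) = _
      rw [wd] at h ⊢
      by_cases e : q = p ∧ j = 0 ∧ (if q = p ∧ j = 0 then al t else t).val = 2 * m.T
      · rw [if_pos e]
        refine ⟨?_, by rw [Rec.ev_inv]; exact inv_eq_of_mul_eq_one_right (m.AA gw _)⟩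
        have := e.2.2
        have t2 := t.2
        rw [if_pos ⟨e.1, e.2.1⟩] at this
        simp only [al] at this
        split_ifs at this <;> omega
      · rw [if_neg e] at h
        exact absurd rfl h
    · change m.wd gw (.a p) (.inl (q, r, t, j)) ≠ [] at h
      change _ ∧ (m.R gw).ev (m.wd gw (.a p) (.inl (q, r, t, j))) = _
      rw [wd] at h ⊢
      split_ifs at h ⊢ with e
      · exact ⟨e.2.2, rfl⟩
      · exact absurd rfl h
  · cases b <;> exact absurd rfl h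

theorem uq (a c : Gen Q × Bool) (ha : a.1 ≠ .U) (hc : c.1 ≠ .U) (x) (h1 : (m.R gw).s1 a x ≠ []) (h2 : (m.R gw).s1 c x ≠ []) :
    (m.R gw).ev ((m.R gw).s1 a x) = (m.R gw).ev ((m.R gw).s1 c x) := by
  have hT := m.hT
  obtain ⟨_ | _ | _ | p, b⟩ := a <;> obtain ⟨_ | _ | _ | p', b'⟩ := c <;> try (first | exact absurd rfl ha | exact absurd rfl hc)
  · obtain ⟨q, r, t, j, rfl, e⟩ := m.s1_x gw _ _ h1
    obtain ⟨_, _, _, _, e0, e'⟩ := m.s1_x gw _ _ h2
    cases e0
    have n1 : ∀ j : ZMod m.M, j - 1 ≠ j := fun j => by simp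
    have k : ∀ i i', m.actv q r t i → m.actv q r t i' → i = i' := by
      rintro _ _ ⟨-, ⟨a, rfl⟩ | ⟨a, -, rfl⟩⟩ ⟨-, ⟨c, rfl⟩ | ⟨c, -, rfl⟩⟩ <;> first | rfl | omega
    have := k _ _ e e'
    cases b <;> cases b'
    · rfl
    · exact absurd this (n1 j)
    · exact absurd this.symm (n1 j)
    · rfl
  · obtain ⟨q, r, t, j, rfl, e, -⟩ := m.s1_x gw _ _ h1
    obtain ⟨⟨_, _, _, _, e0, e'⟩, -⟩ := m.s1_b gw _ _ h2
    cases e0
    omega
  · obtain ⟨q, r, t, j, rfl, e, -⟩ := m.s1_x gw _ _ h1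
    obtain ⟨_, _, _, _, e0, e', -⟩ := m.s1_a gw _ _ _ h2
    cases e0
    omega
  · obtain ⟨q, r, t, j, rfl, e, -⟩ := m.s1_x gw _ _ h2
    obtain ⟨⟨_, _, _, _, e0, e'⟩, -⟩ := m.s1_b gw _ _ h1
    cases e0
    omega
  · rw [(m.s1_b gw _ _ h1).2, (m.s1_b gw _ _ h2).2]
  · obtain ⟨q, r, t, j, rfl, e, -⟩ := m.s1_a gw _ _ _ h2
    obtain ⟨⟨_, _, _, _, e0, e'⟩, -⟩ := m.s1_b gw _ _ h1
    cases e0
    omega
  · obtain ⟨q, r, t, j, rfl, e, -⟩ := m.s1_x gw _ _ h2
    obtain ⟨_, _, _, _, e0, e', -⟩ := m.s1_a gw _ _ _ h1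
    cases e0
    omega
  · obtain ⟨q, r, t, j, rfl, e, -⟩ := m.s1_a gw _ _ _ h1
    obtain ⟨⟨_, _, _, _, e0, e'⟩, -⟩ := m.s1_b gw _ _ h2
    cases e0
    omega
  · obtain ⟨q, r, t, j, rfl, -, e⟩ := m.s1_a gw _ _ _ h1
    obtain ⟨_, _, _, _, e0, -, e'⟩ := m.s1_a gw _ _ _ h2
    cases e0
    rw [e, e']

omit [DecidableEq Q] in
theorem Old.append {g h : List (Gen Q × Bool)} (a : Old g) (b : Old h) : Old (g ++ h) := fun x hx =>
  (List.mem_append.1 hx).elim (a x) (b x)

theorem half : ∀ (g : List (Gen Q × Bool)) (_ : Old g) (x : m.L),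
    ∃ h, Old h ∧ (m.R gw).ev h = (m.R gw).ev ((m.R gw).sec g x) ∧ h.length ≤ (g.length + 1) / 2
  | [], _, _ => ⟨[], fun _ h => by simp at h, rfl, by simp⟩
  | [a], H, x => ⟨_, (m.s1_old gw a (H a (by simp)) x).1, by simp [Rec.sec, Rec.out], by simpa using (m.s1_old gw a (H a (by simp)) x).2⟩
  | a :: c :: g, H, x => by
    obtain ⟨h, h1, h2, h3⟩ := half g (fun y hy => H y (by simp [hy])) x
    have ha := H a (by simp)
    have hc := H c (by simp)
    have l : ((a :: c :: g).length + 1) / 2 = (g.length + 1) / 2 + 1 := by simp only [List.length_cons]; omega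
    simp only [Rec.sec, Rec.out, Perm.mul_apply, Rec.ev_append, ← h2, l]
    generalize (m.R gw).out g x = y
    by_cases e1 : (m.R gw).s1 a ((m.R gw).o1 c y) = []
    · obtain ⟨a1, a2⟩ := m.s1_old gw c hc y
      exact ⟨_, Old.append a1 h1, by rw [e1, Rec.ev_append, Rec.ev_nil, one_mul], by rw [List.length_append]; omega⟩
    by_cases e2 : (m.R gw).s1 c y = []
    · obtain ⟨a1, a2⟩ := m.s1_old gw a ha ((m.R gw).o1 c y)
      exact ⟨_, Old.append a1 h1, by rw [e2, Rec.ev_append, Rec.ev_nil, one_mul], by rw [List.length_append]; omega⟩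
    have := m.uq gw a (c.1, !c.2) ha hc _ e1 (by rw [Rec.s1_not]; simpa [invRev] using e2)
    exact ⟨h, h1, by rw [this, Rec.s1_not, Rec.ev_inv, inv_mul_cancel_left], by omega⟩

theorem shr (v : List m.L) (g : List (Gen Q × Bool)) (H : Old g) :
    ∃ h, (m.R gw).ev ((m.R gw).secs g v) = (m.R gw).ev h ∧ h.length ≤ max 1 (g.length - v.length) := by
  induction v generalizing g with
  | nil => exact ⟨g, rfl, by simp⟩
  | cons x v ih =>
    obtain ⟨h, h1, h2, h3⟩ := m.half gw g H x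
    obtain ⟨k, k1, k2⟩ := ih h h1
    exact ⟨k, ((m.R gw).secs_congr h2.symm v).trans k1, by simp only [List.length_cons]; omega⟩

def U : Perm (List m.L) := (m.R gw).ev [(.U, true)]

theorem rlU1 (l) : Rl (m.U gw) (.inl l) (.inl l) 1 := ((m.R gw).rl1 .U _).of_eq rfl rfl (Rec.ev_nil _)
theorem rlU2 : Rl (m.U gw) (.inr true) (.inr true) (m.U gw) := (m.R gw).rl1 .U _
theorem rlU3 : Rl (m.U gw) (.inr false) (.inr false) ((m.R gw).ev gw) := (m.R gw).rl1 .U _

theorem rl_old (s : Gen Q) (hs : s ≠ .U) (c) : Rl ((m.R gw).ev [(s, true)]) (.inr c) (.inr c) 1 := by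
  rcases s with _ | _ | _ | p
  · exact m.rlXc gw c
  · exact m.rlBc gw c
  · exact absurd rfl hs
  · exact m.rlAc gw p c

theorem split (g : List (Gen Q × Bool)) : ∃ (h : List (Gen Q × Bool)) (i : ℤ), Old h ∧ h.length ≤ g.length ∧
    (∀ l y k, Rl ((m.R gw).ev h) (.inl l) y k → Rl ((m.R gw).ev g) (.inl l) y k) ∧
    Rl ((m.R gw).ev g) (.inr true) (.inr true) (m.U gw ^ i) ∧ Rl ((m.R gw).ev g) (.inr false) (.inr false) ((m.R gw).ev gw ^ i) := by
  induction g with
  | nil => exact ⟨[], 0, fun _ h => by simp at h, le_rfl, fun _ _ _ h => h, by simpa using Rl.one _, by simpa using Rl.one _⟩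
  | cons a g ih =>
    obtain ⟨h, i, h1, h2, h3, h4, h5⟩ := ih
    have fx : ∀ l, ∃ l', (m.R gw).out h (.inl l) = .inl l' := fun l => by
      rcases e : (m.R gw).out h (.inl l) with l' | c
      · exact ⟨_, rfl⟩
      · have a1 := (h3 l _ _ (e ▸ (m.R gw).rl h (.inl l))).inv
        cases c
        · cases (a1.uniq h5.inv).1
        · cases (a1.uniq h4.inv).1
    rw [Rec.ev_cons]
    obtain ⟨s, b⟩ := a
    by_cases e : s = .U
    · subst e
      cases b
      · rw [Rec.ev_false, ← U]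
        refine ⟨h, -1 + i, h1, by simp; omega, fun l y k H => ?_, by simpa [zpow_add] using h4.mul (m.rlU2 gw).inv,
          by simpa [zpow_add] using h5.mul (m.rlU3 gw).inv⟩
        obtain ⟨l', e⟩ := fx l
        obtain rfl := (H.uniq (e ▸ (m.R gw).rl h (.inl l))).1
        simpa using (h3 _ _ _ H).mul (m.rlU1 gw l').inv
      · rw [← U]
        refine ⟨h, 1 + i, h1, by simp; omega, fun l y k H => ?_, by simpa [zpow_add] using h4.mul (m.rlU2 gw),
          by simpa [zpow_add] using h5.mul (m.rlU3 gw)⟩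
        obtain ⟨l', e⟩ := fx l
        obtain rfl := (H.uniq (e ▸ (m.R gw).rl h (.inl l))).1
        simpa using (h3 _ _ _ H).mul (m.rlU1 gw l')
    · have k : ∀ c, Rl ((m.R gw).ev [(s, b)]) (.inr c) (.inr c) 1 := fun c => by
        cases b
        · rw [Rec.ev_false]; simpa using (m.rl_old gw s e c).inv
        · exact m.rl_old gw s e c
      refine ⟨(s, b) :: h, i, fun y hy => (List.mem_cons.1 hy).elim (fun y' => y' ▸ e) (h1 y), by simpa using h2,
        fun l y k H => ?_, by simpa using h4.mul (k _), by simpa using h5.mul (k _)⟩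
      have a1 := (m.R gw).rl h (.inl l)
      have a2 := (m.R gw).rl [(s, b)] ((m.R gw).out h (.inl l))
      rw [Rec.ev_cons] at H
      obtain ⟨rfl, rfl⟩ := H.uniq (a1.mul a2)
      exact (h3 _ _ _ a1).mul a2

theorem contr_of_fin [Finite Q] (hg : Old gw) (H : IsOfFinOrder ((m.R gw).ev gw)) : (m.R gw).Contr := by
  have : Finite (Gen Q) := Finite.of_surjective (fun o : Fin 3 ⊕ Q => o.elim ![Gen.x, .b, .U] .a) fun s => by
    rcases s with _ | _ | _ | p
    exacts [⟨.inl 0, rfl⟩, ⟨.inl 1, rfl⟩, ⟨.inl 2, rfl⟩, ⟨.inr p, rfl⟩]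
  obtain ⟨N, N0, hN⟩ := isOfFinOrder_iff_pow_eq_one.1 H
  have hU : m.U gw ^ N = 1 := by
    ext1 v
    induction v with
    | nil => exact Function.IsFixedPt.perm_pow (e := m.U gw) (x := []) rfl _
    | cons x v ih =>
      rcases x with l | _ | _
      · rw [(m.rlU1 gw l).pow N v]; simp
      · rw [(m.rlU3 gw).pow N v, hN]; rfl
      · rw [(m.rlU2 gw).pow N v, ih]; rfl
  have red : ∀ {a : Perm (List m.L)}, a ^ N = 1 → ∀ i : ℤ, ∃ k < N, a ^ i = a ^ k := fun {a} ha i => by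
    have N1 : (0 : ℤ) < N := by exact_mod_cast N0
    have a1 := Int.emod_nonneg i N1.ne'
    have a2 := Int.emod_lt_of_pos i N1
    refine ⟨(i % N).toNat, by omega, ?_⟩
    rw [← zpow_natCast, Int.toNat_of_nonneg a1, ← zpow_eq_zpow_emod' i ha]
  let Z := N * (gw.length + 1) + 1
  let P : List (Gen Q × Bool) → List m.L → Prop := fun g v => ∃ h, h.length ≤ Z ∧ (m.R gw).ev ((m.R gw).secs g v) = (m.R gw).ev h
  have P1 : ∀ g v (i : ℤ), (m.R gw).ev g = (m.R gw).ev gw ^ i → P g v := fun g v i e => by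
    obtain ⟨k, k1, k2⟩ := red hN i
    have : ∀ k, ∃ h, Old h ∧ h.length = k * gw.length ∧ (m.R gw).ev gw ^ k = (m.R gw).ev h := fun k => by
      induction k with
      | zero => exact ⟨[], fun _ h => by simp at h, by simp, by simp⟩
      | succ k ih =>
        obtain ⟨h, a, b, c⟩ := ih
        exact ⟨h ++ gw, Old.append a hg, by simp [b, add_mul], by rw [pow_succ, c, Rec.ev_append]⟩
    obtain ⟨h, a, b, c⟩ := this k
    obtain ⟨h', a', b'⟩ := m.shr gw v h a
    refine ⟨h', b'.trans (max_le (by omega) ?_), ((m.R gw).secs_congr (e.trans (k2.trans c)) v).trans a'⟩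
    have : k * gw.length ≤ N * (gw.length + 1) := Nat.mul_le_mul k1.le (by omega)
    omega
  have P2 : ∀ v g (i : ℤ), (m.R gw).ev g = m.U gw ^ i → P g v := fun v => by
    induction v with
    | nil =>
      intro g i e
      obtain ⟨k, k1, k2⟩ := red hU i
      refine ⟨List.replicate k (.U, true), ?_, by rw [Rec.ev_rep]; exact e.trans k2⟩
      have : N * 1 ≤ N * (gw.length + 1) := Nat.mul_le_mul le_rfl (by omega)
      simp only [List.length_replicate]
      omega
    | cons x v ih =>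
      intro g i e
      have a := e ▸ (m.R gw).rl g x
      rcases x with l | _ | _
      · exact P1 _ v 0 (by simpa using (a.uniq ((m.rlU1 gw l).zpow i)).2)
      · exact P1 _ v i (a.uniq ((m.rlU3 gw).zpow i)).2
      · exact ih _ i (a.uniq ((m.rlU2 gw).zpow i)).2
  refine ⟨{h | h.length ≤ Z}, List.finite_length_le _ Z, fun g => ⟨g.length + 1, fun v hv => ?_⟩⟩
  obtain ⟨h, i, h1, h2, h3, h4, h5⟩ := m.split gw g
  rcases v with _ | ⟨x, v⟩
  · simp at hv
  have a := (m.R gw).rl g x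
  rcases x with l | _ | _
  · obtain ⟨k, k1, k2⟩ := m.shr gw (.inl l :: v) h h1
    exact ⟨k, k2.trans (max_le (by omega) (by omega)),
      ((m.R gw).secs_congr (a.uniq (h3 _ _ _ ((m.R gw).rl h _))).2 v).trans k1⟩
  · exact P1 _ v i (a.uniq h5).2
  · exact P2 v _ i (a.uniq h4).2

theorem fin_of_contr (H : (m.R gw).Contr) : IsOfFinOrder ((m.R gw).ev gw) := by
  obtain ⟨N, h1, h2⟩ := H
  have : IsOfFinOrder (m.U gw) := by
    refine finite_powers.1 ((h1.image (m.R gw).ev).subset ?_)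
    rintro _ ⟨k, rfl⟩
    obtain ⟨n, hn⟩ := h2 (List.replicate k (.U, true))
    obtain ⟨h, a, b⟩ := hn (List.replicate n (.inr true)) (by simp)
    refine ⟨h, a, b.symm.trans ?_⟩
    have : ∀ n g, (m.R gw).ev g = m.U gw ^ k → (m.R gw).ev ((m.R gw).secs g (List.replicate n (.inr true))) = m.U gw ^ k := fun n => by
      induction n with
      | zero => exact fun _ e => e
      | succ n ih => exact fun g e => ih _ ((e ▸ (m.R gw).rl g (.inr true)).uniq ((m.rlU2 gw).pow k)).2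
    exact this n _ (Rec.ev_rep _ _ _)
  obtain ⟨k, k0, hk⟩ := isOfFinOrder_iff_pow_eq_one.1 this
  exact isOfFinOrder_iff_pow_eq_one.2 ⟨k, k0, ((hk ▸ (m.rlU3 gw).pow k).uniq (Rl.one _)).2⟩

end Mc

end Pool.Agent.H.MP_e16db3_al
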