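import Mathlib
import Pool.Agent.H.MP_e16db3_al.B
import Pool.Agent.H.MP_e16db3_al.E
import Pool.Agent.Lib.helper22.Mul

set_option autoImplicit false

namespace Pool.Agent.H.MP_e16db3_al

open Finset Pool.Agent.Lib.helper21.Mach

theorem arith {M n a b n' : ℕ} (hM : 0 < M) (hb : 0 < b) (d : b ∣ M) (h : a * n = b * n') :
    (a * M / b - a * (n % M) / b) * (n / M) + a * (n % M) / b * ((n + M - 1) / M) = n' := by
  obtain ⟨c, rfl⟩ := d
  have e := Nat.div_add_mod n (b * c)
  have l := Nat.mod_lt n hM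
  generalize n / (b * c) = k at *
  generalize n % (b * c) = r at *
  subst e
  have d : b ∣ a * r := (Nat.dvd_add_right (⟨a * c * k, by ring⟩ : b ∣ a * (b * c * k))).1 ⟨n', by rw [← h]; ring⟩
  obtain ⟨e, he⟩ := d
  have e1 : a * (b * c) / b = a * c := by rw [mul_left_comm, Nat.mul_div_cancel_left _ hb]
  have e2 : n' = a * c * k + e := Nat.eq_of_mul_eq_mul_left hb (by rw [← h, mul_add, he]; ring)
  have e3 : e ≤ a * c := Nat.le_of_mul_le_mul_left (by rw [← he, mul_left_comm]; exact Nat.mul_le_mul_left _ l.le) hb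
  rw [e1, he, Nat.mul_div_cancel_left _ hb, e2]
  rcases Nat.eq_zero_or_pos r with rfl | r0
  · obtain rfl : e = 0 := by simpa [hb.ne'] using he.symm
    simp
  · have : (b * c * k + r + b * c - 1) / (b * c) = k + 1 := by
      rw [show b * c * k + r + b * c - 1 = (r - 1) + b * c * (k + 1) by rw [mul_add]; omega, Nat.add_mul_div_left _ _ hM,
        Nat.div_eq_of_lt (by omega), zero_add]
    obtain ⟨s, hs⟩ := Nat.exists_eq_add_of_le e3
    rw [this, hs, Nat.add_sub_cancel_left]
    ring

theorem main : ¬ ∃ f : Data → Bool, Computable f ∧ ∀ D, Valid D → (f D = true ↔ Contracting D) := by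
  classical
  rintro ⟨F, hF, H⟩
  obtain ⟨C, Q, _, st, X, f, c0, q0, mo, nxt, α, β, -, h0, hm, hβ, hf, hM⟩ := Pool.Agent.Lib.FO.exists_mul
  have := Fintype.ofFinite Q
  obtain ⟨M, M1, d1, d2⟩ : ∃ M, 1 < M ∧ (∀ q, mo q ∣ M) ∧ ∀ q t, β q t ∣ M := by
    have M0 : 0 < (∏ q, mo q) * ∏ p : Q × Bool, β p.1 p.2 := mul_pos (prod_pos fun q _ => hm q) (prod_pos fun p _ => (hβ _ _).2)
    exact ⟨(∏ q, mo q) * (∏ p : Q × Bool, β p.1 p.2) * 2, by omega, fun q => ((dvd_prod_of_mem _ (mem_univ q)).mul_right _).mul_right _,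
      fun q t => ((dvd_prod_of_mem (fun p : Q × Bool => β p.1 p.2) (mem_univ (q, t))).mul_left _).mul_right _⟩
  have : NeZero M := ⟨by omega⟩
  let t : Q → ZMod M → Bool := fun q r => decide ¬ mo q ∣ r.val
  let m : Mc Q := ⟨M, (∑ p : Q × Bool, α p.1 p.2) * M + 1, M1, by omega, fun q r => nxt q (t q r),
    fun q r => α q (t q r) * M / β q (t q r) - α q (t q r) * r.val / β q (t q r), fun q r => α q (t q r) * r.val / β q (t q r), fun q r => by
      have a1 : α q (t q r) * r.val / β q (t q r) ≤ α q (t q r) * M / β q (t q r) :=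
        Nat.div_le_div_right (Nat.mul_le_mul_left _ (ZMod.val_lt r).le)
      have a2 : α q (t q r) * M / β q (t q r) ≤ α q (t q r) * M := Nat.div_le_self _ _
      have a3 : α q (t q r) * M ≤ (∑ p : Q × Bool, α p.1 p.2) * M := Nat.mul_le_mul_right _
        (single_le_sum (f := fun p : Q × Bool => α p.1 p.2) (fun _ _ => Nat.zero_le _) (mem_univ (q, t q r)))
      omega⟩
  have key : ∀ c, m.nx (st c) (X c) = (f c).map st ∧ ∀ c', f c = some c' → m.nn (X c) (st c) (X c) = X c' := fun c => by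
    obtain ⟨e1, e2⟩ := hf c (t (st c) (X c)) (by simp [t, ZMod.val_natCast, Nat.dvd_mod_iff (d1 _)])
    refine ⟨e1.symm, fun c' h => ?_⟩
    have := arith (by omega) (hβ _ _).2 (d2 _ _) (e2 c' h)
    rw [← ZMod.val_natCast] at this
    exact this
  have hal : ∀ gw c, Halts f c ↔ IsOfFinOrder (m.gg gw (some (st c)) (X c)) := fun gw c => by
    constructor
    · intro h
      induction h with
      | @stop c s => exact m.fin_step gw _ _ (by rw [(key c).1, s]; exact m.fin_none gw _)
      | @go c c' s _ ih => exact m.fin_step gw _ _ (by rw [(key c).1, s, (key c).2 _ s]; exact ih)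
    · intro h
      obtain ⟨N, N0, hN⟩ := isOfFinOrder_iff_pow_eq_one.1 h
      clear h
      induction N using Nat.strong_induction_on generalizing c with
      | _ N ih =>
        obtain ⟨K, a, b, e⟩ := m.desc gw _ _ N N0 hN
        cases s : f c with
        | none => exact .stop s
        | some c' =>
          rw [(key c).1, s, (key c).2 _ s] at e
          exact .go s (ih K b c' a e)
  have : Finite (Gen Q) := Finite.of_surjective (fun o : Fin 3 ⊕ Q => o.elim ![Gen.x, .b, .U] .a) fun s => by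
    rcases s with _ | _ | _ | p
    exacts [⟨.inl 0, rfl⟩, ⟨.inl 1, rfl⟩, ⟨.inl 2, rfl⟩, ⟨.inr p, rfl⟩]
  let eX := Finite.equivFin m.L
  let eS := Finite.equivFin (Gen Q)
  let R : ℕ → Rec m.L (Gen Q) := fun n => m.R (Mc.gwd q0 (2 ^ n))
  have hc : Computable fun n => (R n).data eX eS := by
    refine data_comp eX eS R (fun _ => rfl) fun s x => ?_
    have rp : ∀ a : ℕ × Bool, Primrec fun n => List.replicate (2 ^ n) a := fun a =>
      (Primrec.list_map (Primrec.list_range.comp (Primrec₂.unpaired'.1 Nat.Primrec.pow |>.comp (Primrec.const 2) Primrec.id))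
        (Primrec.const a).to₂).of_eq fun n => by simp
    by_cases hs : ¬ (s = .U ∧ x = .inr false)
    · refine (Computable.const (encW eS ((R 0).w s x))).of_eq fun n => ?_
      rcases s with _ | _ | _ | p <;> rcases x with ⟨q, r, t, j⟩ | _ | _ <;> first | rfl | exact absurd ⟨rfl, rfl⟩ hs
    obtain ⟨rfl, rfl⟩ := not_not.1 hs
    refine (Primrec.list_append.comp (Primrec.list_append.comp (rp (eS .x, true)) (Primrec.list_cons.comp
      (Primrec.const ((eS (.a q0) : ℕ), true)) (rp (eS .x, false)))) (Primrec.const [((eS .b : ℕ), true)])).to_comp.of_eq fun n => ?_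
    simp [R, Mc.R, Mc.wd, Mc.gwd, encW]
  refine hM (ComputablePred.computable_iff.2 ⟨_, hF.comp hc, funext fun n => propext ?_⟩)
  have hd : 2 ≤ Nat.card m.L := Finite.one_lt_card_iff_nontrivial.2 ⟨⟨.inr true, .inr false, by simp⟩⟩
  rw [H _ (valid_data eX eS _ hd), contr_iff, hal (Mc.gwd q0 (2 ^ n)), (h0 n).1, (h0 n).2, ← Mc.ev_gwd]
  refine ⟨m.contr_of_fin _ fun a ha => ?_, m.fin_of_contr _⟩
  simp only [Mc.gwd, List.mem_append, List.mem_cons, List.mem_replicate, List.not_mem_nil, or_false] at ha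
  rcases ha with (⟨-, rfl⟩ | rfl | ⟨-, rfl⟩) | rfl <;> simp

end Pool.Agent.H.MP_e16db3_al
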